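import Mathlib
import Pool.Agent.V5helper66.LD.Stm

/-!
Pairwise independence of the residues of `k · z` modulo a prime.
-/

open Finset

namespace Pool.Agent.V5helper37.LD

open V5LD

theorem sum_hom {G A : Type*} [AddCommGroup G] [Fintype G] [AddCommGroup A] [Fintype A]
    (φ : G →+ A) (h : Function.Surjective φ) (f : A → ℝ) :
    (Fintype.card A : ℝ) * ∑ z, f (φ z) = (Fintype.card G : ℝ) * ∑ a, f a := by
  have h1 : ∀ a : A, ∑ z, f (φ z) = ∑ z, f (φ z + a) := by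
    intro a
    obtain ⟨z0, hz⟩ := h a
    rw [← Equiv.sum_comp (Equiv.addRight z0) (fun z => f (φ z))]
    simp [hz]
  have h2 : ∀ b : A, ∑ a, f (b + a) = ∑ a, f a := fun b => Equiv.sum_comp (Equiv.addLeft b) f
  calc (Fintype.card A : ℝ) * ∑ z, f (φ z) = ∑ a : A, ∑ z, f (φ z) := by simp
    _ = ∑ a : A, ∑ z, f (φ z + a) := sum_congr rfl fun a _ => h1 a
    _ = ∑ z, ∑ a, f (φ z + a) := sum_comm
    _ = ∑ z : G, ∑ a, f a := sum_congr rfl fun z _ => h2 _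
    _ = _ := by simp

/-- `z ↦ k · z` modulo `Q`. -/
def dot (Q : ℕ) {n : ℕ} (k : Fin n → ℕ) : (Fin n → ZMod Q) →+ ZMod Q where
  toFun z := ∑ i, (k i : ZMod Q) * z i
  map_zero' := by simp
  map_add' x y := by simp [mul_add, sum_add_distrib]

theorem dot_apply (Q : ℕ) {n : ℕ} (k : Fin n → ℕ) (z : Fin n → ZMod Q) :
    dot Q k z = ∑ i, (k i : ZMod Q) * z i := rfl

theorem res_eq (Q : ℕ) {n : ℕ} (k : Fin n → ℕ) (z : Fin n → ZMod Q) :
    res Q k z = (dot Q k z).valMinAbs := rfl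

theorem dot_single (Q : ℕ) {n : ℕ} (k : Fin n → ℕ) (i : Fin n) (c : ZMod Q) :
    dot Q k (Pi.single i c) = (k i : ZMod Q) * c := by
  rw [dot_apply, Finset.sum_eq_single i]
  · simp
  · intro j _ hj
    simp [Pi.single_eq_of_ne hj]
  · simp

theorem dot_surj {Q : ℕ} (hQ : Q.Prime) {n : ℕ} (k : Fin n → ℕ) (i : Fin n)
    (hk : ¬ Q ∣ k i) : Function.Surjective (dot Q k) := by
  haveI := Fact.mk hQ
  intro a
  have h : (k i : ZMod Q) ≠ 0 := fun h => hk ((ZMod.natCast_eq_zero_iff _ _).1 h)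
  refine ⟨Pi.single i ((k i : ZMod Q)⁻¹ * a), ?_⟩
  rw [dot_single, ← mul_assoc, mul_inv_cancel₀ h, one_mul]

theorem pair_surj {Q : ℕ} (hQ : Q.Prime) {n : ℕ} (k k' : Fin n → ℕ) (h : Indep Q k k') :
    Function.Surjective ((dot Q k).prod (dot Q k')) := by
  haveI := Fact.mk hQ
  obtain ⟨i, j, hij⟩ := h
  have hd : (k i : ZMod Q) * k' j - k j * k' i ≠ 0 := by
    intro h
    apply hij
    rw [← ZMod.intCast_zmod_eq_zero_iff_dvd]
    push_cast
    exact h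
  rintro ⟨u, v⟩
  refine ⟨Pi.single i ((u * k' j - v * k j) / ((k i : ZMod Q) * k' j - k j * k' i)) +
    Pi.single j ((v * k i - u * k' i) / ((k i : ZMod Q) * k' j - k j * k' i)), ?_⟩
  rw [AddMonoidHom.prod_apply, map_add, map_add, dot_single, dot_single, dot_single, dot_single]
  rw [Prod.mk.injEq]
  constructor
  · rw [mul_div_assoc', mul_div_assoc', ← add_div, div_eq_iff hd]
    ring
  · rw [mul_div_assoc', mul_div_assoc', ← add_div, div_eq_iff hd]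
    ring

/-- the vector of residues. -/
def cz (Q : ℕ) {n : ℕ} (z : Fin n → Fin Q) : Fin n → ZMod Q := fun i => ((z i : ℕ) : ZMod Q)

theorem cast_bij (Q : ℕ) [NeZero Q] : Function.Bijective (fun x : Fin Q => ((x : ℕ) : ZMod Q)) := by
  rw [Fintype.bijective_iff_injective_and_card]
  refine ⟨?_, by simp⟩
  intro x y h
  have h1 := (ZMod.natCast_eq_natCast_iff' _ _ _).1 h
  rw [Nat.mod_eq_of_lt x.2, Nat.mod_eq_of_lt y.2] at h1
  exact Fin.ext h1

theorem cz_bij (Q : ℕ) [NeZero Q] {n : ℕ} : Function.Bijective (cz Q (n := n)) := by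
  constructor
  · intro x y h
    funext i
    exact (cast_bij Q).1 (congrFun h i)
  · intro y
    choose f hf using (cast_bij Q).2
    exact ⟨fun i => f (y i), funext fun i => hf (y i)⟩

theorem sum_cz (Q : ℕ) [NeZero Q] {n : ℕ} (F : (Fin n → ZMod Q) → ℝ) :
    ∑ z : Fin n → Fin Q, F (cz Q z) = ∑ z, F z :=
  Function.Bijective.sum_comp (cz_bij Q) F

theorem sum_one {Q : ℕ} (hQ : Q.Prime) {n : ℕ} (k : Fin n → ℕ) (i : Fin n) (hk : ¬ Q ∣ k i)
    (f : ZMod Q → ℝ) [NeZero Q] : (Q : ℝ) * ∑ z : Fin n → Fin Q, f (dot Q k (cz Q z)) =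
      (Q : ℝ) ^ n * ∑ a, f a := by
  rw [sum_cz Q (fun z => f (dot Q k z))]
  have h := sum_hom (dot Q k) (dot_surj hQ k i hk) f
  rw [ZMod.card] at h
  rw [h]
  congr 1
  simp [ZMod.card]

theorem sum_two {Q : ℕ} (hQ : Q.Prime) {n : ℕ} (k k' : Fin n → ℕ) (h : Indep Q k k')
    (f f' : ZMod Q → ℝ) [NeZero Q] :
    (Q : ℝ) ^ 2 * ∑ z : Fin n → Fin Q, f (dot Q k (cz Q z)) * f' (dot Q k' (cz Q z)) =
      (Q : ℝ) ^ n * ((∑ a, f a) * ∑ a, f' a) := by
  rw [sum_cz Q (fun z => f (dot Q k z) * f' (dot Q k' z))]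
  have h := sum_hom ((dot Q k).prod (dot Q k')) (pair_surj hQ k k' h) (fun p => f p.1 * f' p.2)
  rw [Fintype.card_prod, ZMod.card] at h
  have h1 : ∑ p : ZMod Q × ZMod Q, f p.1 * f' p.2 = (∑ a, f a) * ∑ a, f' a := by
    rw [Fintype.sum_prod_type, Finset.sum_mul_sum]
  rw [h1] at h
  have h2 : ((Q * Q : ℕ) : ℝ) = (Q : ℝ) ^ 2 := by
    push_cast
    ring
  rw [h2] at h
  have h3 : (Fintype.card (Fin n → ZMod Q) : ℝ) = (Q : ℝ) ^ n := by
    simp [ZMod.card]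
  rw [h3] at h
  exact h

theorem pr_pos {n : ℕ} {k : Fin n → ℕ} (h : ∀ i, 0 < k i) : 0 < pr k :=
  prod_pos fun i _ => by exact_mod_cast h i

end Pool.Agent.V5helper37.LD
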