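import Mathlib
import Pool.Agent.V5helper37.LD.Base

/-!
Jobs LC and GCD.
-/

open Finset

namespace Pool.Agent.V5helper37.LD

open V5LD

theorem dot_cz (g : ℕ) {n : ℕ} (b : Fin n → ℕ) (ρ : Fin n → Fin g) :
    dot g b (cz g ρ) = 0 ↔ g ∣ ∑ i, ((ρ i : Fin g) : ℕ) * b i := by
  rw [← ZMod.natCast_eq_zero_iff, dot_apply]
  push_cast
  unfold cz
  rw [Finset.sum_congr rfl fun i _ => mul_comm (b i : ZMod g) ((ρ i : ℕ) : ZMod g)]

theorem cnt_eq (n g : ℕ) [NeZero g] (b : Fin n → ℕ) :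
    cnt n g b = Nat.card (dot g b).ker := by
  classical
  have h1 : Nat.card (dot g b).ker =
      ((univ : Finset (Fin n → ZMod g)).filter (fun z => dot g b z = 0)).card := by
    rw [Nat.card_eq_fintype_card, Fintype.card_subtype]
    congr 1
    ext z
    simp [AddMonoidHom.mem_ker]
  have h2 : ((univ : Finset (Fin n → ZMod g)).filter (fun z => dot g b z = 0)) =
      ((univ : Finset (Fin n → Fin g)).filter
        (fun ρ => g ∣ ∑ i, ((ρ i : Fin g) : ℕ) * b i)).image (cz g) := by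
    ext z
    rw [Finset.mem_filter, Finset.mem_image]
    constructor
    · rintro ⟨-, hz⟩
      obtain ⟨ρ, rfl⟩ := (cz_bij g).2 z
      exact ⟨ρ, Finset.mem_filter.2 ⟨Finset.mem_univ _, (dot_cz g b ρ).1 hz⟩, rfl⟩
    · rintro ⟨ρ, hρ, rfl⟩
      exact ⟨Finset.mem_univ _, (dot_cz g b ρ).2 (Finset.mem_filter.1 hρ).2⟩
  rw [h1, h2, Finset.card_image_of_injective _ (cz_bij g).1]
  unfold cnt
  congr 1

theorem ker_mul_range (n g : ℕ) [NeZero g] (b : Fin n → ℕ) :
    Nat.card (dot g b).ker * Nat.card (dot g b).range = g ^ n := by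
  have h1 := AddSubgroup.card_eq_card_quotient_mul_card_addSubgroup (dot g b).ker
  rw [Nat.card_congr (QuotientAddGroup.quotientKerEquivRange (dot g b)).toEquiv] at h1
  rw [mul_comm, ← h1, Nat.card_eq_fintype_card]
  simp [ZMod.card]

theorem t_LC : S_LC := by
  intro n g F b hn hg
  haveI : NeZero g := ⟨hg.ne'⟩
  have h1 := ker_mul_range n g b
  rw [← cnt_eq] at h1
  set h := Nat.card (dot g b).range with hh
  have hdvd : h ∣ g := by
    have := AddSubgroup.card_addSubgroup_dvd_card (dot g b).range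
    rwa [Nat.card_zmod] at this
  have hgn : g ^ n = g ^ (n - 1) * g := by
    rw [← pow_succ]
    congr 1
    omega
  have hpos : 0 < h := Nat.pos_of_dvd_of_pos hdvd hg
  constructor
  · have h2 : h ≤ g := Nat.le_of_dvd hg hdvd
    have h3 : g ^ (n - 1) * g ≤ cnt n g b * g := by
      rw [← hgn, ← h1]
      exact Nat.mul_le_mul_left _ h2
    exact Nat.le_of_mul_le_mul_right h3 hg
  · intro hC
    obtain ⟨e, he⟩ := hdvd
    have he1 : e ∣ g := ⟨h, by rw [he, mul_comm]⟩
    have he2 : ∀ i, e ∣ b i := by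
      intro i
      have h4 : ((b i : ℕ) : ZMod g) ∈ (dot g b).range := by
        refine ⟨Pi.single i 1, ?_⟩
        rw [dot_single, mul_one]
      have h5 : h • ((b i : ℕ) : ZMod g) = 0 := by
        have h6 := card_nsmul_eq_zero' (G := (dot g b).range) (x := ⟨_, h4⟩)
        have h7 := congrArg (Subtype.val) h6
        rw [AddSubgroup.coe_nsmul] at h7
        exact h7
      rw [nsmul_eq_mul, ← Nat.cast_mul, ZMod.natCast_eq_zero_iff] at h5
      rw [he] at h5
      exact Nat.dvd_of_mul_dvd_mul_left hpos h5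
    have he3 := hC e he1 he2
    have h4 : cnt n g b * h ≤ F * g ^ (n - 1) * h := by
      rw [h1, hgn, he]
      calc (h * e) ^ (n - 1) * (h * e) = e * ((h * e) ^ (n - 1) * h) := by ring
        _ ≤ F * ((h * e) ^ (n - 1) * h) := Nat.mul_le_mul_right _ he3
        _ = _ := by ring
    exact Nat.le_of_mul_le_mul_right h4 hpos

theorem card_dvd_le {N e : ℕ} (he : e ∣ N) (hN : 0 < N) [DecidablePred fun x : Fin N => e ∣ (x : ℕ)] :
    ((univ : Finset (Fin N)).filter (fun x : Fin N => e ∣ (x : ℕ))).card ≤ N / e := by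
  rw [← Finset.card_range (N / e)]
  have he0 : 0 < e := Nat.pos_of_dvd_of_pos he hN
  refine Finset.card_le_card_of_injOn (fun x => (x : ℕ) / e) ?_ ?_
  · intro x _
    rw [Finset.mem_coe, Finset.mem_range]
    exact Nat.div_lt_div_of_lt_of_dvd he x.2
  · intro x hx y hy hxy
    have h1 := (Finset.mem_filter.1 (Finset.mem_coe.1 hx)).2
    have h2 := (Finset.mem_filter.1 (Finset.mem_coe.1 hy)).2
    apply Fin.ext
    have h3 : (x : ℕ) / e = (y : ℕ) / e := hxy
    rw [← Nat.div_mul_cancel h1, ← Nat.div_mul_cancel h2, h3]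

theorem t_GCD : S_GCD := by
  classical
  intro n F N hn hF hN
  have hN0 : (0 : ℝ) < N := by exact_mod_cast hN
  have hF0 : (0 : ℝ) < F := by exact_mod_cast hF
  by_cases hFN : N ≤ F
  · have h0 : ((univ : Finset (Fin (n + 1) → Fin N)).filter (fun a =>
        ∃ e : ℕ, F < e ∧ e ∣ N ∧ ∀ i, e ∣ ((a i : Fin N) : ℕ))) = ∅ := by
      rw [Finset.filter_eq_empty_iff]
      rintro a - ⟨e, he1, he2, -⟩
      have := Nat.le_of_dvd hN he2
      omega
    have h1 : (0 : ℝ) ≤ (N : ℝ) ^ (n + 1) / F := by positivity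
    refine le_trans (le_of_eq ?_) h1
    rw [Nat.cast_eq_zero, Finset.card_eq_zero]
    rw [← h0]
  push Not at hFN
  have h1 : ((univ : Finset (Fin (n + 1) → Fin N)).filter (fun a =>
        ∃ e : ℕ, F < e ∧ e ∣ N ∧ ∀ i, e ∣ ((a i : Fin N) : ℕ))) ⊆
      ((Finset.Ioc F N).filter (fun e => e ∣ N)).biUnion (fun e =>
        Fintype.piFinset (fun _ : Fin (n + 1) =>
          (univ : Finset (Fin N)).filter (fun x : Fin N => e ∣ (x : ℕ)))) := by
    intro a ha
    obtain ⟨-, e, he1, he2, he3⟩ := Finset.mem_filter.1 ha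
    rw [Finset.mem_biUnion]
    refine ⟨e, Finset.mem_filter.2 ⟨Finset.mem_Ioc.2 ⟨he1, Nat.le_of_dvd hN he2⟩, he2⟩, ?_⟩
    rw [Fintype.mem_piFinset]
    exact fun i => Finset.mem_filter.2 ⟨Finset.mem_univ _, he3 i⟩
  have h2 : ((((Finset.Ioc F N).filter (fun e => e ∣ N)).biUnion (fun e =>
        Fintype.piFinset (fun _ : Fin (n + 1) =>
          (univ : Finset (Fin N)).filter (fun x : Fin N => e ∣ (x : ℕ))))).card : ℝ) ≤
      ∑ e ∈ (Finset.Ioc F N).filter (fun e => e ∣ N), (N : ℝ) ^ (n + 1) * ((e : ℝ) ^ 2)⁻¹ := by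
    refine le_trans (Nat.cast_le.2 Finset.card_biUnion_le) ?_
    push_cast
    refine Finset.sum_le_sum fun e he => ?_
    obtain ⟨he1, he2⟩ := Finset.mem_filter.1 he
    have he0 : 0 < e := Nat.pos_of_dvd_of_pos he2 hN
    have he0' : (1 : ℝ) ≤ e := by exact_mod_cast he0
    rw [Fintype.card_piFinset_const]
    have h3 : ((((univ : Finset (Fin N)).filter (fun x : Fin N => e ∣ (x : ℕ))).card : ℕ) : ℝ) ≤
        (N : ℝ) / e := by
      have h4 := card_dvd_le he2 hN
      calc _ ≤ ((N / e : ℕ) : ℝ) := by exact_mod_cast h4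
        _ ≤ _ := Nat.cast_div_le
    push_cast
    calc _ ≤ ((N : ℝ) / e) ^ (n + 1) := pow_le_pow_left₀ (by positivity) h3 _
      _ = (N : ℝ) ^ (n + 1) * ((e : ℝ) ^ (n + 1))⁻¹ := by rw [div_pow, div_eq_mul_inv]
      _ ≤ _ := by
        refine mul_le_mul_of_nonneg_left ?_ (by positivity)
        apply inv_anti₀ (by positivity)
        exact pow_le_pow_right₀ he0' (by omega)
  have h3 : ∑ e ∈ (Finset.Ioc F N).filter (fun e => e ∣ N), (N : ℝ) ^ (n + 1) * ((e : ℝ) ^ 2)⁻¹ ≤
      (N : ℝ) ^ (n + 1) / F := by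
    rw [← Finset.mul_sum, div_eq_mul_inv]
    refine mul_le_mul_of_nonneg_left ?_ (by positivity)
    refine (Finset.sum_le_sum_of_subset_of_nonneg (Finset.filter_subset _ _)
      fun e _ _ => by positivity).trans ?_
    have h4 := sum_Ioc_inv_sq_le_sub (α := ℝ) (k := F) (n := N) (by omega) hFN.le
    have h5 : (0 : ℝ) ≤ (N : ℝ)⁻¹ := by positivity
    linarith
  refine le_trans ?_ (h2.trans h3)
  exact_mod_cast (Finset.card_le_card (by convert h1))

end Pool.Agent.V5helper37.LD
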