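import Mathlib
import Pool.Agent.V5helper37.LD.Base

/-!
Job SM2: union bound over pairs.
-/

open Finset

namespace Pool.Agent.V5helper37.LD

open V5LD

/-- the weight as a function of the residue. -/
noncomputable def wf (Q g : ℕ) (p : ℝ) (r : ZMod Q) : ℝ :=
  ((g : ℝ) * Q) / (p * |(r.valMinAbs : ℝ)|)

theorem ww_eq (Q g : ℕ) {n : ℕ} (k : Fin n → ℕ) (z : Fin n → Fin Q) :
    ww Q g k (fun i => ((z i : ℕ) : ZMod Q)) = wf Q g (pr k) (dot Q k (cz Q z)) := rfl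

open Classical in
/-- indicator of activity. -/
noncomputable def ac (Q g : ℕ) (t1 t2 p : ℝ) (r : ZMod Q) : ℝ :=
  if t1 ≤ wf Q g p r ∧ wf Q g p r ≤ t2 then 1 else 0

theorem ac_nonneg (Q g : ℕ) (t1 t2 p : ℝ) (r : ZMod Q) : 0 ≤ ac Q g t1 t2 p r := by
  unfold ac
  split_ifs <;> norm_num

theorem active_bound {Q g : ℕ} {t1 p : ℝ} (ht : 0 < t1) (hp : 0 < p) {r : ZMod Q}
    (h : t1 ≤ wf Q g p r) : r.valMinAbs ≠ 0 ∧ |(r.valMinAbs : ℝ)| ≤ (g : ℝ) * Q / (t1 * p) := by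
  unfold wf at h
  have h0 : r.valMinAbs ≠ 0 := by
    intro h0
    rw [h0] at h
    simp at h
    linarith
  have h1 : 0 < |(r.valMinAbs : ℝ)| := abs_pos.2 (by exact_mod_cast h0)
  refine ⟨h0, ?_⟩
  rw [le_div_iff₀ (mul_pos hp h1)] at h
  rw [le_div_iff₀ (mul_pos ht hp)]
  linarith

theorem ac_sum (Q g : ℕ) [NeZero Q] (t1 t2 p : ℝ) (ht : 0 < t1) (hp : 0 < p) :
    ∑ r, ac Q g t1 t2 p r ≤ 2 * ((g : ℝ) * Q / (t1 * p)) := by
  classical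
  set B : ℝ := (g : ℝ) * Q / (t1 * p) with hB
  have hB0 : 0 ≤ B := by positivity
  unfold ac
  rw [Finset.sum_boole]
  have h1 : ((univ : Finset (ZMod Q)).filter
      (fun r => t1 ≤ wf Q g p r ∧ wf Q g p r ≤ t2)).card ≤
      ((Finset.Icc (-⌊B⌋) ⌊B⌋).erase 0).card := by
    refine Finset.card_le_card_of_injOn (fun r => r.valMinAbs) ?_ ?_
    · intro r hr
      have hr := (Finset.mem_filter.1 (Finset.mem_coe.1 hr)).2
      obtain ⟨h0, h1⟩ := active_bound ht hp hr.1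
      rw [Finset.mem_coe, Finset.mem_erase, Finset.mem_Icc]
      refine ⟨h0, ?_⟩
      rw [← abs_le]
      apply Int.le_floor.2
      push_cast
      exact h1
    · intro x _ y _ h
      exact ZMod.injective_valMinAbs h
  have h2 : ((Finset.Icc (-⌊B⌋) ⌊B⌋).erase 0).card = 2 * ⌊B⌋.toNat := by
    have hf : 0 ≤ ⌊B⌋ := Int.floor_nonneg.2 hB0
    rw [Finset.card_erase_of_mem (Finset.mem_Icc.2 ⟨by omega, hf⟩), Int.card_Icc]
    omega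
  have h3 : ((⌊B⌋.toNat : ℕ) : ℝ) ≤ B := by
    have hf : 0 ≤ ⌊B⌋ := Int.floor_nonneg.2 hB0
    have h4 : ((⌊B⌋.toNat : ℕ) : ℝ) = ((⌊B⌋ : ℤ) : ℝ) := by
      have := Int.toNat_of_nonneg hf
      exact_mod_cast this
    rw [h4]
    exact Int.floor_le B
  calc _ ≤ ((2 * ⌊B⌋.toNat : ℕ) : ℝ) := by exact_mod_cast h2 ▸ h1
    _ = 2 * ((⌊B⌋.toNat : ℕ) : ℝ) := by push_cast; ring
    _ ≤ 2 * B := by linarith

/-- joint indicator. -/
noncomputable def pp (Q g : ℕ) (t1 t2 : ℝ) {n : ℕ} (z : Fin n → Fin Q)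
    (p : (Fin n → ℕ) × (Fin n → ℕ)) : ℝ :=
  ac Q g t1 t2 (pr p.1) (dot Q p.1 (cz Q z)) * ac Q g t1 t2 (pr p.2) (dot Q p.2 (cz Q z))

theorem pp_nonneg (Q g : ℕ) (t1 t2 : ℝ) {n : ℕ} (z : Fin n → Fin Q)
    (p : (Fin n → ℕ) × (Fin n → ℕ)) : 0 ≤ pp Q g t1 t2 z p :=
  mul_nonneg (ac_nonneg _ _ _ _ _ _) (ac_nonneg _ _ _ _ _ _)

theorem ac_one {Q g : ℕ} {t1 t2 : ℝ} {n : ℕ} {z : Fin n → Fin Q} {k : Fin n → ℕ}
    (h : Act Q g t1 t2 k (fun i => ((z i : ℕ) : ZMod Q))) :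
    ac Q g t1 t2 (pr k) (dot Q k (cz Q z)) = 1 := by
  unfold ac
  rw [if_pos]
  exact h

theorem pp_one {Q g : ℕ} {t1 t2 : ℝ} {n : ℕ} {z : Fin n → Fin Q}
    {p : (Fin n → ℕ) × (Fin n → ℕ)}
    (h1 : Act Q g t1 t2 p.1 (fun i => ((z i : ℕ) : ZMod Q)))
    (h2 : Act Q g t1 t2 p.2 (fun i => ((z i : ℕ) : ZMod Q))) : pp Q g t1 t2 z p = 1 := by
  unfold pp
  rw [ac_one h1, ac_one h2, one_mul]

theorem pp_sum {Q g : ℕ} [NeZero Q] (hQ : Q.Prime) {t1 t2 : ℝ} (ht : 0 < t1) {n : ℕ}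
    (p : (Fin n → ℕ) × (Fin n → ℕ))
    (hp : (∀ i, 0 < p.1 i) ∧ (∀ i, 0 < p.2 i) ∧ Indep Q p.1 p.2) :
    ∑ z : Fin n → Fin Q, pp Q g t1 t2 z p ≤
      4 / t1 ^ 2 * (((g : ℝ) / pr p.1) * ((g : ℝ) / pr p.2)) * (Q : ℝ) ^ n := by
  have hQ0 : (0 : ℝ) < Q := by exact_mod_cast hQ.pos
  obtain ⟨hp1, hp2, hi⟩ := hp
  have q1 := pr_pos hp1
  have q2 := pr_pos hp2
  have h := sum_two hQ p.1 p.2 hi (ac Q g t1 t2 (pr p.1)) (ac Q g t1 t2 (pr p.2))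
  have s1 := ac_sum Q g t1 t2 (pr p.1) ht q1
  have s2 := ac_sum Q g t1 t2 (pr p.2) ht q2
  have s3 : 0 ≤ ∑ r, ac Q g t1 t2 (pr p.2) r := Finset.sum_nonneg fun r _ => ac_nonneg _ _ _ _ _ _
  have s4 := mul_le_mul s1 s2 s3 (by positivity)
  have s5 : (Q : ℝ) ^ 2 * ∑ z : Fin n → Fin Q, pp Q g t1 t2 z p ≤ (Q : ℝ) ^ 2 *
      (4 / t1 ^ 2 * (((g : ℝ) / pr p.1) * ((g : ℝ) / pr p.2)) * (Q : ℝ) ^ n) := by
    unfold pp
    rw [h]
    refine (mul_le_mul_of_nonneg_left s4 (by positivity)).trans (le_of_eq ?_)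
    field_simp
    ring
  exact le_of_mul_le_mul_left s5 (by positivity)

theorem t_SM2 : S_SM2 := by
  classical
  intro n Q g P t1 t2 hQ hg ht hn hP
  haveI : NeZero Q := ⟨hQ.ne_zero⟩
  have h1 : ∀ z : Fin n → Fin Q, (if ∃ p ∈ P, Act Q g t1 t2 p.1 (fun i => ((z i : ℕ) : ZMod Q)) ∧
      Act Q g t1 t2 p.2 (fun i => ((z i : ℕ) : ZMod Q)) then (1 : ℝ) else 0) ≤
      ∑ p ∈ P, pp Q g t1 t2 z p := by
    intro z
    split_ifs with h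
    · obtain ⟨p, hp, h1, h2⟩ := h
      rw [← pp_one h1 h2]
      exact Finset.single_le_sum (fun p _ => pp_nonneg Q g t1 t2 z p) hp
    · exact Finset.sum_nonneg fun p _ => pp_nonneg Q g t1 t2 z p
  have h2 := Finset.sum_le_sum (s := (Finset.univ : Finset (Fin n → Fin Q))) fun z _ => h1 z
  rw [Finset.sum_boole, Finset.sum_comm] at h2
  refine le_trans ?_ (h2.trans (Finset.sum_le_sum fun p hp => pp_sum hQ ht p (hP p hp)) |>.trans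
    (le_of_eq ?_))
  · exact le_of_eq (by congr 2)
  · rw [← Finset.sum_mul, ← Finset.mul_sum]

end Pool.Agent.V5helper37.LD
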