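import Mathlib
import Pool.Agent.V5helper37.LD.SM2

/-!
Job SM1: second moment.
-/

open Finset

namespace Pool.Agent.V5helper37.LD

open V5LD

open Classical in
/-- the weight restricted to the active residues. -/
noncomputable def wa (Q g : ℕ) (t1 t2 p : ℝ) (r : ZMod Q) : ℝ :=
  if t1 ≤ wf Q g p r ∧ wf Q g p r ≤ t2 then wf Q g p r else 0

theorem wf_nonneg (Q g : ℕ) {p : ℝ} (hp : 0 < p) (r : ZMod Q) : 0 ≤ wf Q g p r := by
  unfold wf
  positivity

theorem wa_nonneg (Q g : ℕ) (t1 t2 : ℝ) {p : ℝ} (hp : 0 < p) (r : ZMod Q) :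
    0 ≤ wa Q g t1 t2 p r := by
  unfold wa
  split_ifs
  · exact wf_nonneg Q g hp r
  · exact le_rfl

theorem wa_le (Q g : ℕ) (t1 : ℝ) {t2 : ℝ} (ht : 0 ≤ t2) (p : ℝ) (r : ZMod Q) :
    wa Q g t1 t2 p r ≤ t2 := by
  unfold wa
  split_ifs with h
  · exact h.2
  · exact ht

theorem harm_log (a b : ℕ) (h : a ≤ b) :
    Real.log (((b : ℝ) + 1) / ((a : ℝ) + 1)) ≤ ∑ m ∈ Finset.Icc (a + 1) b, 1 / (m : ℝ) := by
  induction b, h using Nat.le_induction with
  | base =>
    have h1 : (a : ℝ) + 1 ≠ 0 := by positivity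
    rw [div_self h1]
    simp
  | succ b hb ih =>
    rw [Finset.sum_Icc_succ_top (by omega)]
    have h1 : (0 : ℝ) < (a : ℝ) + 1 := by positivity
    have h2 : (0 : ℝ) < (b : ℝ) + 1 := by positivity
    have h3 : Real.log (((b + 1 : ℕ) : ℝ) + 1) - Real.log ((b : ℝ) + 1) ≤
        1 / ((b + 1 : ℕ) : ℝ) := by
      rw [← Real.log_div (by positivity) h2.ne']
      have h4 := Real.log_le_sub_one_of_pos (x := (((b + 1 : ℕ) : ℝ) + 1) / ((b : ℝ) + 1))
        (by positivity)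
      refine h4.trans (le_of_eq ?_)
      push_cast
      field_simp
      ring
    rw [Real.log_div (by positivity) h1.ne'] at ih ⊢
    linarith

theorem wf_int {Q g : ℕ} [NeZero Q] {p : ℝ} {m : ℕ} (hmQ : 2 * m < Q) {y : ℤ}
    (hy : y = m ∨ y = -(m : ℤ)) : wf Q g p ((y : ℤ) : ZMod Q) = ((g : ℝ) * Q) / (p * m) := by
  have h : (((y : ℤ) : ZMod Q)).valMinAbs = y := by
    rw [ZMod.valMinAbs_spec]
    refine ⟨rfl, ?_⟩
    rw [Set.mem_Ioc]
    rcases hy with rfl | rfl <;> omega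
  unfold wf
  rw [h]
  congr 2
  rcases hy with rfl | rfl
  · simp
  · simp

theorem wa_sum {Q g : ℕ} (hQ : Q.Prime) (hg : 0 < g) {t1 t2 p : ℝ} (ht1 : 1 ≤ t1)
    (ht2 : 4 * t1 ≤ t2) (hp : 0 < p) (h1 : 4 * t2 * p ≤ g * Q) (h2 : 2 * (g : ℝ) ≤ t1 * p)
    [NeZero Q] :
    (Q : ℝ) * (Real.log (t2 / t1) * ((g : ℝ) / p)) ≤ ∑ r, wa Q g t1 t2 p r := by
  classical
  have hQ0 : (0 : ℝ) < Q := by exact_mod_cast hQ.pos
  have hg0 : (0 : ℝ) < g := by exact_mod_cast hg
  have ht1' : 0 < t1 := by linarith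
  have ht2' : 0 < t2 := by linarith
  set A : ℝ := (g : ℝ) * Q / (t2 * p) with hA
  set B : ℝ := (g : ℝ) * Q / (t1 * p) with hB
  have hA4 : 4 ≤ A := by
    rw [hA, le_div_iff₀ (by positivity)]
    linarith
  have hAB : B = (t2 / t1) * A := by
    rw [hA, hB]
    field_simp
  have h4 : 4 ≤ t2 / t1 := by
    rw [le_div_iff₀ ht1']
    exact ht2
  have hB1 : 4 * A ≤ B := by
    rw [hAB]
    exact mul_le_mul_of_nonneg_right h4 (by linarith)
  have hBQ : 2 * B ≤ Q := by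
    have h5 : 2 * (g : ℝ) * Q / (t1 * p) ≤ Q := by
      rw [div_le_iff₀ (by positivity)]
      nlinarith
    rw [hB]
    calc 2 * ((g : ℝ) * Q / (t1 * p)) = 2 * (g : ℝ) * Q / (t1 * p) := by ring
      _ ≤ Q := h5
  obtain ⟨a, ha⟩ : ∃ a : ℕ, a + 1 = ⌈A⌉₊ := by
    have : 0 < ⌈A⌉₊ := Nat.ceil_pos.2 (by linarith)
    exact ⟨⌈A⌉₊ - 1, by omega⟩
  set b : ℕ := ⌊B⌋₊ with hb
  have ha1 : A ≤ (a : ℝ) + 1 := by
    have := Nat.le_ceil A
    rw [← ha] at this
    push_cast at this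
    exact this
  have ha2 : (a : ℝ) ≤ A := by
    have := Nat.ceil_lt_add_one (a := A) (by linarith)
    rw [← ha] at this
    push_cast at this
    linarith
  have hb1 : (b : ℝ) ≤ B := Nat.floor_le (by linarith)
  have hb2 : B < (b : ℝ) + 1 := Nat.lt_floor_add_one B
  have hab : a ≤ b := by
    have : (a : ℝ) < (b : ℝ) + 1 := by linarith
    have h6 : a < b + 1 := by exact_mod_cast this
    omega
  have hQ8 : 8 ≤ Q := by
    have : (8 : ℝ) ≤ Q := by linarith
    exact_mod_cast this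
  have hlt : ∀ m ∈ Finset.Icc (a + 1) b, 0 < m ∧ 2 * m < Q := by
    intro m hm
    rw [Finset.mem_Icc] at hm
    refine ⟨by omega, ?_⟩
    have h5 : (m : ℝ) ≤ b := by exact_mod_cast hm.2
    have h6 : 2 * m ≤ Q := by
      have : (2 : ℝ) * m ≤ Q := by linarith
      exact_mod_cast this
    refine lt_of_le_of_ne h6 fun h7 => ?_
    have h8 : 2 ∣ Q := ⟨m, h7.symm⟩
    have h9 := (Nat.prime_dvd_prime_iff_eq Nat.prime_two hQ).1 h8
    omega
  have hval : ∀ m ∈ Finset.Icc (a + 1) b, ∀ y : ℤ, (y = m ∨ y = -(m : ℤ)) →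
      wa Q g t1 t2 p ((y : ℤ) : ZMod Q) = ((g : ℝ) * Q / p) * (1 / (m : ℝ)) := by
    intro m hm y hy
    obtain ⟨hm0, hmQ⟩ := hlt m hm
    have hw := wf_int (g := g) (p := p) hmQ hy
    have hm0' : (0 : ℝ) < m := by exact_mod_cast hm0
    rw [Finset.mem_Icc] at hm
    unfold wa
    rw [hw, if_pos]
    · field_simp
    · constructor
      · rw [le_div_iff₀ (by positivity)]
        have h5 : (m : ℝ) ≤ B := le_trans (by exact_mod_cast hm.2) hb1
        rw [hB, le_div_iff₀ (by positivity)] at h5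
        linarith
      · rw [div_le_iff₀ (by positivity)]
        have h5 : A ≤ m := ha1.trans (by exact_mod_cast hm.1)
        rw [hA, div_le_iff₀ (by positivity)] at h5
        linarith
  set I := Finset.Icc (a + 1) b with hI
  have hinj1 : Set.InjOn (fun m : ℕ => (((m : ℤ)) : ZMod Q)) I := by
    intro x hx y hy hxy
    have h5 := (hlt x hx).2
    have h6 := (hlt y hy).2
    have h7 : (((x : ℕ)) : ZMod Q) = ((y : ℕ) : ZMod Q) := by simpa using hxy
    rw [ZMod.natCast_eq_natCast_iff', Nat.mod_eq_of_lt (by omega), Nat.mod_eq_of_lt (by omega)] at h7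
    exact h7
  have hinj2 : Set.InjOn (fun m : ℕ => (((-(m : ℤ)) : ℤ) : ZMod Q)) I := by
    intro x hx y hy hxy
    apply hinj1 hx hy
    simp only [Int.cast_neg] at hxy
    exact neg_injective hxy
  have hdisj : Disjoint (I.image (fun m : ℕ => (((m : ℤ)) : ZMod Q)))
      (I.image (fun m : ℕ => (((-(m : ℤ)) : ℤ) : ZMod Q))) := by
    rw [Finset.disjoint_left]
    intro r hr hr2
    obtain ⟨x, hx, rfl⟩ := Finset.mem_image.1 hr
    obtain ⟨y, hy, hxy⟩ := Finset.mem_image.1 hr2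
    have h5 := (hlt x hx)
    have h6 := (hlt y hy)
    have h7 : ((x + y : ℕ) : ZMod Q) = 0 := by
      push_cast at hxy ⊢
      rw [← hxy]
      ring
    rw [ZMod.natCast_eq_zero_iff] at h7
    have := Nat.le_of_dvd (by omega) h7
    omega
  have hsum : ∑ r ∈ I.image (fun m : ℕ => (((m : ℤ)) : ZMod Q)), wa Q g t1 t2 p r +
      ∑ r ∈ I.image (fun m : ℕ => (((-(m : ℤ)) : ℤ) : ZMod Q)), wa Q g t1 t2 p r ≤
      ∑ r, wa Q g t1 t2 p r := by
    rw [← Finset.sum_union hdisj]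
    exact Finset.sum_le_sum_of_subset_of_nonneg (Finset.subset_univ _)
      fun r _ _ => wa_nonneg Q g t1 t2 hp r
  rw [Finset.sum_image hinj1, Finset.sum_image hinj2,
    Finset.sum_congr rfl (fun m hm => hval m hm _ (Or.inl rfl)),
    Finset.sum_congr rfl (fun m hm => hval m hm _ (Or.inr rfl)), ← Finset.mul_sum] at hsum
  have hlog := harm_log a b hab
  have hlog2 : Real.log (t2 / t1) - 1 / A ≤ Real.log (((b : ℝ) + 1) / ((a : ℝ) + 1)) := by
    have h5 : Real.log (B / (A + 1)) ≤ Real.log (((b : ℝ) + 1) / ((a : ℝ) + 1)) := by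
      apply Real.log_le_log (by positivity)
      apply div_le_div₀ (by positivity) hb2.le (by positivity) (by linarith)
    have h6 : Real.log (t2 / t1) = Real.log (B / (A + 1)) + Real.log ((A + 1) / A) := by
      rw [← Real.log_mul (by positivity) (by positivity)]
      congr 1
      rw [hAB]
      field_simp
    have h7 : Real.log ((A + 1) / A) ≤ 1 / A := by
      refine (Real.log_le_sub_one_of_pos (by positivity)).trans (le_of_eq ?_)
      field_simp
      ring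
    linarith
  have hlog3 : 1 / A ≤ Real.log (t2 / t1) / 2 := by
    have h5 : 1 / A ≤ 1 / 4 := one_div_le_one_div_of_le (by norm_num) hA4
    have h6 : Real.log 4 ≤ Real.log (t2 / t1) := Real.log_le_log (by norm_num) h4
    have h7 : 1 / 2 ≤ Real.log 4 := by
      have : (4 : ℝ) = 2 ^ 2 := by norm_num
      rw [this, Real.log_pow]
      have := Real.log_two_gt_d9
      push_cast
      linarith
    linarith
  have h8 : Real.log (t2 / t1) / 2 ≤ ∑ m ∈ I, 1 / (m : ℝ) := by linarith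
  have h9 : 0 ≤ (g : ℝ) * Q / p := by positivity
  have h10 := mul_le_mul_of_nonneg_left h8 h9
  calc (Q : ℝ) * (Real.log (t2 / t1) * ((g : ℝ) / p))
      = (g : ℝ) * Q / p * (Real.log (t2 / t1) / 2) + (g : ℝ) * Q / p * (Real.log (t2 / t1) / 2) := by
        ring
    _ ≤ _ := by linarith

theorem cheb {Z K : Type*} [Fintype Z] [DecidableEq K] (F : Finset K) (W : K → Z → ℝ)
    (e : K → ℝ) (t M μ : ℝ) (hM : (Fintype.card Z : ℝ) = M) (hM0 : 0 ≤ M) (ht : 0 ≤ t)
    (h1 : ∀ k ∈ F, ∑ z, W k z = M * e k)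
    (h2 : ∀ k ∈ F, ∀ k' ∈ F, k ≠ k' → ∑ z, W k z * W k' z = M * (e k * e k'))
    (h3 : ∀ k ∈ F, 0 ≤ e k) (h0 : ∀ k ∈ F, ∀ z, 0 ≤ W k z) (hle : ∀ k ∈ F, ∀ z, W k z ≤ t)
    (hμ : 0 < μ) (hμe : μ ≤ ∑ k ∈ F, e k) (S : Finset Z)
    (hS : ∀ z ∈ S, ∑ k ∈ F, W k z < 1 / 2 * μ) :
    (S.card : ℝ) ≤ 4 * t / μ * M := by
  set E : ℝ := ∑ k ∈ F, e k with hE
  have hE0 : 0 < E := lt_of_lt_of_le hμ hμe
  have hX : ∑ z, ∑ k ∈ F, W k z = M * E := by
    rw [Finset.sum_comm, hE, Finset.mul_sum]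
    exact Finset.sum_congr rfl h1
  have hX2 : ∑ z, (∑ k ∈ F, W k z) ^ 2 ≤ t * (M * E) + M * E ^ 2 := by
    have e1 : ∀ z, (∑ k ∈ F, W k z) ^ 2 = ∑ k ∈ F, ∑ k' ∈ F, W k z * W k' z := by
      intro z
      rw [sq, Finset.sum_mul_sum]
    rw [Finset.sum_congr rfl fun z _ => e1 z, Finset.sum_comm]
    have e2 : ∀ k ∈ F, ∑ z, ∑ k' ∈ F, W k z * W k' z ≤ t * (M * e k) + M * (e k * E) := by
      intro k hk
      rw [Finset.sum_comm, ← Finset.add_sum_erase F _ hk]
      have e3 : ∑ z, W k z * W k z ≤ t * (M * e k) := by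
        rw [← h1 k hk, Finset.mul_sum]
        exact Finset.sum_le_sum fun z _ => mul_le_mul_of_nonneg_right (hle k hk z) (h0 k hk z)
      have e4 : ∑ k' ∈ F.erase k, ∑ z, W k z * W k' z ≤ M * (e k * E) := by
        rw [Finset.sum_congr rfl fun k' hk' => h2 k hk k' (Finset.mem_of_mem_erase hk')
          (Finset.ne_of_mem_erase hk').symm, ← Finset.mul_sum, ← Finset.mul_sum]
        refine mul_le_mul_of_nonneg_left (mul_le_mul_of_nonneg_left ?_ (h3 k hk)) hM0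
        exact Finset.sum_le_sum_of_subset_of_nonneg (Finset.erase_subset _ _)
          fun k' hk' _ => h3 k' hk'
      exact add_le_add e3 e4
    refine (Finset.sum_le_sum e2).trans (le_of_eq ?_)
    rw [Finset.sum_add_distrib, ← Finset.mul_sum, ← Finset.mul_sum, ← Finset.mul_sum,
      ← Finset.sum_mul, ← hE]
    ring
  have hV : ∑ z, ((∑ k ∈ F, W k z) - E) ^ 2 ≤ t * (M * E) := by
    have e1 : ∀ z, ((∑ k ∈ F, W k z) - E) ^ 2 =
        (∑ k ∈ F, W k z) ^ 2 - 2 * E * (∑ k ∈ F, W k z) + E ^ 2 := by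
      intro z
      ring
    rw [Finset.sum_congr rfl fun z _ => e1 z, Finset.sum_add_distrib, Finset.sum_sub_distrib,
      ← Finset.mul_sum, hX, Finset.sum_const, nsmul_eq_mul, Finset.card_univ, hM]
    nlinarith
  have hB : (S.card : ℝ) * (E ^ 2 / 4) ≤ t * (M * E) := by
    refine le_trans ?_ hV
    rw [← nsmul_eq_mul, ← Finset.sum_const]
    refine (Finset.sum_le_sum fun z hz => ?_).trans
      (Finset.sum_le_sum_of_subset_of_nonneg (Finset.subset_univ S) fun z _ _ => sq_nonneg _)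
    have h4 := hS z hz
    have h5 : 0 ≤ ∑ k ∈ F, W k z := Finset.sum_nonneg fun k hk => h0 k hk z
    nlinarith
  have h6 : (S.card : ℝ) * E ≤ 4 * t * M := by
    have : ((S.card : ℝ) * E) * (E / 4) ≤ (4 * t * M) * (E / 4) := by nlinarith
    exact le_of_mul_le_mul_right this (by positivity)
  have h7 : (S.card : ℝ) * μ ≤ 4 * t * M :=
    (mul_le_mul_of_nonneg_left hμe (by positivity)).trans h6
  rw [div_mul_eq_mul_div, le_div_iff₀ hμ]
  exact h7

theorem act_sum (Q g : ℕ) (t1 t2 : ℝ) {n : ℕ} (F : Finset (Fin n → ℕ)) (z : Fin n → Fin Q)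
    [DecidablePred fun k => Act Q g t1 t2 k (fun i => ((z i : ℕ) : ZMod Q))] :
    ∑ k ∈ F.filter (fun k => Act Q g t1 t2 k (fun i => ((z i : ℕ) : ZMod Q))),
      ww Q g k (fun i => ((z i : ℕ) : ZMod Q)) =
      ∑ k ∈ F, wa Q g t1 t2 (pr k) (dot Q k (cz Q z)) := by
  rw [Finset.sum_filter]
  refine Finset.sum_congr rfl fun k _ => ?_
  unfold wa
  by_cases h : Act Q g t1 t2 k (fun i => ((z i : ℕ) : ZMod Q))
  · rw [if_pos h, if_pos]
    · rfl
    · exact h
  · rw [if_neg h, if_neg]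
    exact h

theorem t_SM1 : S_SM1 := by
  classical
  refine ⟨4, by norm_num, ?_⟩
  intro n Q g F t1 t2 hQ hg ht1 ht2 hF hI hne hn
  haveI : NeZero Q := ⟨hQ.ne_zero⟩
  have hQ0 : (0 : ℝ) < Q := by exact_mod_cast hQ.pos
  have hg0 : (0 : ℝ) < g := by exact_mod_cast hg
  have ht1' : 0 < t1 := by linarith
  have ht2' : 0 < t2 := by linarith
  have hp : ∀ k ∈ F, 0 < pr k := fun k hk => pr_pos fun i => ((hF k hk).1 i).1
  have hL : 0 < Real.log (t2 / t1) := by
    apply Real.log_pos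
    rw [lt_div_iff₀ ht1']
    linarith
  have hSp : 0 < ∑ k ∈ F, (g : ℝ) / pr k :=
    Finset.sum_pos (fun k hk => div_pos hg0 (hp k hk)) hne
  have hcard : (Fintype.card (Fin n → Fin Q) : ℝ) = (Q : ℝ) ^ n := by simp
  refine cheb F (fun k z => wa Q g t1 t2 (pr k) (dot Q k (cz Q z)))
    (fun k => (∑ r, wa Q g t1 t2 (pr k) r) / Q) t2 ((Q : ℝ) ^ n)
    (Real.log (t2 / t1) * ∑ k ∈ F, (g : ℝ) / pr k) hcard (by positivity) ht2'.le ?_ ?_ ?_ ?_ ?_
    (mul_pos hL hSp) ?_ _ ?_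
  · intro k hk
    have h : ¬ Q ∣ k ⟨0, by omega⟩ := by
      intro h
      have h1 := (hF k hk).1 ⟨0, by omega⟩
      have := Nat.le_of_dvd h1.1 h
      omega
    have h2 := sum_one hQ k _ h (wa Q g t1 t2 (pr k))
    show ∑ z : Fin n → Fin Q, wa Q g t1 t2 (pr k) (dot Q k (cz Q z)) = _
    field_simp
    linarith
  · intro k hk k' hk' hkk
    have h2 := sum_two hQ k k' (hI k hk k' hk' hkk) (wa Q g t1 t2 (pr k)) (wa Q g t1 t2 (pr k'))
    show ∑ z : Fin n → Fin Q, wa Q g t1 t2 (pr k) (dot Q k (cz Q z)) *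
      wa Q g t1 t2 (pr k') (dot Q k' (cz Q z)) = _
    field_simp
    linarith
  · intro k hk
    exact div_nonneg (Finset.sum_nonneg fun r _ => wa_nonneg Q g t1 t2 (hp k hk) r) hQ0.le
  · intro k hk z
    exact wa_nonneg Q g t1 t2 (hp k hk) _
  · intro k hk z
    exact wa_le Q g t1 ht2'.le _ _
  · rw [Finset.mul_sum]
    refine Finset.sum_le_sum fun k hk => ?_
    rw [le_div_iff₀ hQ0]
    have h3 := wa_sum hQ hg ht1 ht2 (hp k hk) (hF k hk).2.1 (hF k hk).2.2
    linarith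
  · intro z hz
    have h3 := (Finset.mem_filter.1 hz).2
    rw [act_sum] at h3
    exact h3

end Pool.Agent.V5helper37.LD
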